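import Pool.Agent.W406.PX.Stmts
import Pool.Agent.H96R3.BC.Basic
import Pool.Agent.H96R3.BC.Fix1
import Pool.Agent.H96R3.BC.Fix3
import Pool.Agent.H336R4.BC.FixB2
import Pool.Agent.H394R3.BC.Ker
import Pool.Agent.H553R3.BCKer2

/-!
# PROJECT PX (helper406), TASK FIX: Picard iteration
-/

set_option autoImplicit false

open Finset MeasureTheory

namespace Pool.Agent.W748.PX

open Pool.Agent.W406.PX
open Pool.Agent.H96R3.BC (vv cf NN picard prod_diff NN_nonneg NN_le)
open Pool.Agent.H394R3.BC (Ker Ker_cont_right)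

theorem gw_nonneg (n : ℕ) : 0 ≤ gw n := by
  unfold gw; split_ifs <;> positivity

theorem gw_prime {p : ℕ} (hp : p.Prime) : gw p = 1 / (Real.log p) ^ 2 := if_pos hp

open Classical in
/-- the cell of `p` -/
noncomputable def ci (B : ℕ → ℕ) (p : ℕ) : ℕ :=
  if h : ∃ i, p ∈ Ioc (B i) (B (i + 1)) then h.choose else 0

theorem ci_spec {B : ℕ → ℕ} (hB : StrictMono B) {p : ℕ} (hp : B 0 < p) :
    p ∈ Ioc (B (ci B p)) (B (ci B p + 1)) := by
  classical
  have hex : ∃ i, p ≤ B (i + 1) := ⟨p, (hB.id_le p).trans (hB.monotone (Nat.le_succ p))⟩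
  have h : ∃ i, p ∈ Ioc (B i) (B (i + 1)) := by
    refine ⟨Nat.find hex, ?_⟩
    rw [Finset.mem_Ioc]
    refine ⟨?_, Nat.find_spec hex⟩
    by_contra hcon
    push Not at hcon
    rcases Nat.eq_zero_or_pos (Nat.find hex) with h0 | h0
    · rw [h0] at hcon
      omega
    · have h1 := Nat.find_min hex (m := Nat.find hex - 1) (by omega)
      apply h1
      rw [Nat.sub_add_cancel h0]
      exact hcon
  unfold ci
  rw [dif_pos h]
  exact h.choose_spec

theorem cell_unique {B : ℕ → ℕ} (hB : StrictMono B) {p i j : ℕ} (hi : p ∈ Ioc (B i) (B (i + 1)))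
    (hj : p ∈ Ioc (B j) (B (j + 1))) : i = j := by
  rw [Finset.mem_Ioc] at hi hj
  by_contra hne
  rcases Nat.lt_or_gt_of_ne hne with hlt | hlt
  · have : B (i + 1) ≤ B j := hB.monotone hlt
    omega
  · have : B (j + 1) ≤ B i := hB.monotone hlt
    omega

theorem cN_diff {X : ℕ} {y y' : ℕ → ℝ} {D : ℝ} (hD : 0 ≤ D)
    (hy : ∀ n : ℕ, |y n| ≤ gw n) (hy' : ∀ n : ℕ, |y' n| ≤ gw n)
    (hy0 : ∀ n, n ≤ X → y n = 0) (hy0' : ∀ n, n ≤ X → y' n = 0)
    (hd : ∀ n : ℕ, |y n - y' n| ≤ D * gw n) (n : ℕ) :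
    |cN y n - cN y' n| ≤ D * hm X n ∧ |cN y n| ≤ hm X n := by
  unfold cN hm
  by_cases hp : n.Prime
  · simp [hp]
  rw [if_neg hp, if_neg hp]
  by_cases hs : Squarefree n
  · unfold cf
    rw [if_pos hs, if_pos hs]
    by_cases hall : ∀ p ∈ n.primeFactors, X < p
    · rw [if_pos ⟨hp, hs, hall⟩]
      refine prod_diff n.primeFactors y y' gw gw
        (fun p => 2 / (Real.log p) ^ 2) hD (fun p _ => hy p) (fun p _ => hy' p)
        (fun p _ => gw_nonneg p) (fun p _ => hd p) (fun p hpm => ?_)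
      rw [gw_prime (Nat.prime_of_mem_primeFactors hpm), ← add_div]
      apply le_of_eq
      norm_num
    · rw [if_neg (fun h => hall h.2.2)]
      push Not at hall
      obtain ⟨p, hp1, hp2⟩ := hall
      rw [Finset.prod_eq_zero hp1 (hy0 p hp2), Finset.prod_eq_zero hp1 (hy0' p hp2)]
      simp
  · unfold cf
    rw [if_neg hs, if_neg hs, if_neg (fun h => hs h.2.1)]
    simp

theorem cN_mass {X a b : ℕ} {y y' : ℕ → ℝ} {D : ℝ} (hD : 0 ≤ D)
    (hy : ∀ n : ℕ, |y n| ≤ gw n) (hy' : ∀ n : ℕ, |y' n| ≤ gw n)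
    (hy0 : ∀ n, n ≤ X → y n = 0) (hy0' : ∀ n, n ≤ X → y' n = 0)
    (hd : ∀ n : ℕ, |y n - y' n| ≤ D * gw n) :
    ∑ n ∈ Ioc a b, |cN y n - cN y' n| ≤ D * Hs X a b ∧ ∑ n ∈ Ioc a b, |cN y n| ≤ Hs X a b := by
  have h := cN_diff (X := X) hD hy hy' hy0 hy0' hd
  unfold Hs
  constructor
  · rw [Finset.mul_sum]
    exact Finset.sum_le_sum fun n _ => (h n).1
  · exact Finset.sum_le_sum fun n _ => (h n).2

/-- weight of the response -/
noncomputable def Wx (B : ℕ → ℕ) (ε : ℝ) (p : ℕ) : ℝ := if p.Prime ∧ B 0 < p then ε * gw p else 0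

theorem Wx_nonneg (B : ℕ → ℕ) {ε : ℝ} (hε : 0 ≤ ε) (p : ℕ) : 0 ≤ Wx B ε p := by
  unfold Wx; split_ifs
  · exact mul_nonneg hε (gw_nonneg p)
  · exact le_rfl

theorem Wx_le (B : ℕ → ℕ) {ε : ℝ} (hε : 0 ≤ ε) (p : ℕ) : Wx B ε p ≤ ε * gw p := by
  unfold Wx; split_ifs
  · exact le_rfl
  · exact mul_nonneg hε (gw_nonneg p)

/-- the nonlinear map -/
noncomputable def Ph (Q j' m : ℕ) (B : ℕ → ℕ) (w : ℕ → ℝ → ℝ) (s : ℕ → ℝ) (g : ℕ ⊕ ℝ → ℝ)
    (i : ℕ ⊕ ℝ) : ℝ :=
  match i with
  | Sum.inl p => if p.Prime ∧ B 0 < p then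
      XL Q j' B w (cN (fun q => s q + g (Sum.inl q))) (fun u => g (Sum.inr u)) (ci B p) p else 0
  | Sum.inr v => (vv Q j' 1) ^ 2 * Ker (4 * Q + 3) (vv Q j' 1) (max v 0)
      + FL Q j' B w (cN (fun q => s q + g (Sum.inl q))) (fun u => g (Sum.inr u)) (max v 0)
      + ∑' k, Sg Q j' m B s k (max v 0)

/-- the weights -/
noncomputable def WW (Q j' : ℕ) (B : ℕ → ℕ) (ε : ℝ) (i : ℕ ⊕ ℝ) : ℝ :=
  match i with
  | Sum.inl p => Wx B ε p
  | Sum.inr v => kp Q j' * NN Q (max v 0)

theorem task : TaskFix := by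
  intro hMss hFlz hLin hSrc Q j' m B w ε ω hS s hs
  have hε0 := hS.hε.1.le
  have hQp : 1 ≤ Q := le_trans (by norm_num) hS.hQ
  set κ : ℝ := kp Q j' with hκdef
  have hκ : 0 < κ := by
    have h1 : (0 : ℝ) < j' := by
      have := hS.hj
      have h2 : 0 < j' := by omega
      exact_mod_cast h2
    rw [hκdef]
    unfold kp
    positivity
  have hsrc1 : ∀ v : ℝ, 0 ≤ v →
      |(vv Q j' 1) ^ 2 * Ker (4 * Q + 3) (vv Q j' 1) v| ≤ κ / 4 * NN Q v := by
    intro v hv
    exact Pool.Agent.H336R4.BC.source_le Pool.Agent.H553R3.BC.taskKer2 hQp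
      (le_trans (by norm_num) hS.hj) hv
  obtain ⟨-, -, hSgs, hSgb, hSgc⟩ := hSrc Q j' m B w ε ω hS s hs
  have hs0 : ∀ n, n ≤ j' ^ (2 * Q) → s n = 0 := by
    intro n hn
    by_contra h
    have h1 := (hs.supp n h).2
    have h2 := hS.low
    omega
  -- facts on coefficients
  have hy : ∀ g : ℕ ⊕ ℝ → ℝ, (∀ i, |g i| ≤ WW Q j' B ε i) →
      ∀ n : ℕ, |s n + g (Sum.inl n)| ≤ gw n := by
    intro g hg n
    have h1 := hs.bd n
    have h2 := (hg (Sum.inl n)).trans (Wx_le B hε0 n)
    have h3 := gw_nonneg n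
    have h4 := hS.hε.2
    refine (abs_add_le _ _).trans ((add_le_add h1 h2).trans ?_)
    nlinarith
  have hy0 : ∀ g : ℕ ⊕ ℝ → ℝ, (∀ i, |g i| ≤ WW Q j' B ε i) →
      ∀ n : ℕ, n ≤ j' ^ (2 * Q) → s n + g (Sum.inl n) = 0 := by
    intro g hg n hn
    have h2 : |g (Sum.inl n)| ≤ Wx B ε n := hg (Sum.inl n)
    have h3 := hS.low
    unfold Wx at h2
    rw [if_neg (by omega)] at h2
    rw [hs0 n hn, abs_nonpos_iff.1 h2, add_zero]
  -- facts in the ball
  have ball : ∀ g : ℕ ⊕ ℝ → ℝ, (Continuous fun v => g (Sum.inr v)) →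
      (∀ i, |g i| ≤ WW Q j' B ε i) →
      Bdd Q j' B 1 (cN (fun q => s q + g (Sum.inl q))) (fun u => g (Sum.inr u)) := by
    intro g hgc hg
    refine ⟨zero_le_one, hgc, ?_, ?_⟩
    · intro i
      rw [one_mul]
      exact (cN_mass (D := 1) zero_le_one (hy g hg) (hy g hg) (hy0 g hg) (hy0 g hg)
        (fun n => by rw [sub_self, abs_zero, one_mul]; exact gw_nonneg n)).2
    · intro v hv
      rw [one_mul]
      have := hg (Sum.inr v)
      simp only [WW, max_eq_left hv] at this
      exact this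
  have diff : ∀ g g' : ℕ ⊕ ℝ → ℝ, (Continuous fun v => g (Sum.inr v)) →
      (Continuous fun v => g' (Sum.inr v)) →
      (∀ i, |g i| ≤ WW Q j' B ε i) → (∀ i, |g' i| ≤ WW Q j' B ε i) → ∀ D : ℝ, 0 ≤ D →
      (∀ i, |g i - g' i| ≤ D * WW Q j' B ε i) →
      Bdd Q j' B D (fun n => cN (fun q => s q + g (Sum.inl q)) n
        - cN (fun q => s q + g' (Sum.inl q)) n)
        (fun u => g (Sum.inr u) - g' (Sum.inr u)) := by
    intro g g' hgc hgc' hg hg' D hD hd
    refine ⟨hD, hgc.sub hgc', ?_, ?_⟩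
    · intro i
      refine (cN_mass hD (hy g hg) (hy g' hg') (hy0 g hg) (hy0 g' hg') (fun n => ?_)).1
      have h1 := (hd (Sum.inl n)).trans (mul_le_mul_of_nonneg_left (Wx_le B hε0 n) hD)
      show |s n + g (Sum.inl n) - (s n + g' (Sum.inl n))| ≤ _
      rw [add_sub_add_left_eq_sub]
      refine h1.trans (mul_le_mul_of_nonneg_left ?_ hD)
      have h3 := gw_nonneg n
      have h4 := hS.hε.2
      nlinarith
    · intro v hv
      have := hd (Sum.inr v)
      simp only [WW, max_eq_left hv] at this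
      exact this
  -- Picard
  obtain ⟨g, hgC, hgW, hgfix⟩ := picard (WW Q j' B ε) (fun i => by
      cases i with
      | inl p => exact Wx_nonneg B hε0 p
      | inr v => exact mul_nonneg hκ.le (NN_nonneg _ (le_max_right _ _)))
    {g | Continuous fun v => g (Sum.inr v)} (by
      intro g l hg hgl
      show Continuous fun v => l (Sum.inr v)
      have htl : TendstoLocallyUniformly (fun n v => g n (Sum.inr v)) (fun v => l (Sum.inr v))
          Filter.atTop := by
        rw [Metric.tendstoLocallyUniformly_iff]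
        intro e he v₀
        refine ⟨Metric.ball v₀ 1, Metric.ball_mem_nhds _ one_pos, ?_⟩
        set B' : ℝ := κ * (2 + |v₀|) ^ (4 * Q + 3) with hBd
        have hB0 : 0 ≤ B' := by positivity
        have ht : Filter.Tendsto (fun n : ℕ => 2 * (1 / 2 : ℝ) ^ n * B') Filter.atTop (nhds 0) := by
          have := ((tendsto_pow_atTop_nhds_zero_of_lt_one (r := (1/2:ℝ)) (by norm_num)
            (by norm_num)).const_mul 2).mul_const B'
          simpa using this
        filter_upwards [ht.eventually (gt_mem_nhds he)] with n hn v hv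
        rw [Metric.mem_ball, Real.dist_eq] at hv
        rw [dist_comm, Real.dist_eq]
        refine lt_of_le_of_lt ((hgl n (Sum.inr v)).trans ?_) hn
        apply mul_le_mul_of_nonneg_left _ (by positivity)
        show κ * NN Q (max v 0) ≤ B'
        apply mul_le_mul_of_nonneg_left _ hκ.le
        refine (NN_le Q (le_max_right _ _)).trans (pow_le_pow_left₀ (by positivity) ?_ _)
        have h1 : max v 0 ≤ |v| := max_le (le_abs_self _) (abs_nonneg _)
        have h2 : |v| ≤ |v₀| + 1 := by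
          have := abs_sub_abs_le_abs_sub v v₀
          linarith
        linarith
      exact htl.continuous (Filter.Frequently.of_forall fun n => hg n))
    (Ph Q j' m B w s) continuous_const
    (by
      intro g hg hgW
      show Continuous fun v => Ph Q j' m B w s g (Sum.inr v)
      have h := (hFlz Q j' B w ε ω hS 1 _ _ (ball g hg hgW)).2.1
      refine Continuous.add (Continuous.add ?_ h) hSgc
      exact continuous_const.mul ((Ker_cont_right _ _).comp (continuous_id.max continuous_const)))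
    (by
      intro g hg hgW i
      have hb := ball g hg hgW
      cases i with
      | inl p =>
        show |if _ then _ else _| ≤ Wx B ε p
        unfold Wx
        split_ifs with hp
        · refine ((hMss Q j' B w ε ω hS 1 _ _ hb (ci B p)).1 p (ci_spec hS.mono hp.2) hp.1).trans ?_
          have : 0 ≤ ε * gw p := mul_nonneg hε0 (gw_nonneg p)
          linarith
        · simp
      | inr v =>
        show |_ + _ + _| ≤ κ * NN Q (max v 0)
        have h1 := hsrc1 (max v 0) (le_max_right _ _)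
        have h2 := (hFlz Q j' B w ε ω hS 1 _ _ hb).1 (max v 0) (le_max_right _ _)
        have h5 := hSgb (max v 0) (le_max_right _ _)
        have h3 : 0 ≤ κ * NN Q (max v 0) := mul_nonneg hκ.le (NN_nonneg _ (le_max_right _ _))
        refine (abs_add_le _ _).trans ((add_le_add (abs_add_le _ _) le_rfl).trans ?_)
        have h4 : κ / 4 * NN Q (max v 0) = 1 / 4 * (κ * NN Q (max v 0)) := by ring
        have h6 : κ / 16 * NN Q (max v 0) = 1 / 16 * (κ * NN Q (max v 0)) := by ring
        rw [h4] at h1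
        rw [h6] at h5
        linarith)
    (by
      intro g hg g' hg' hgW hgW' D hD hd i
      have hb := diff g g' hg hg' hgW hgW' D hD hd
      have hl := hLin Q j' B w ε ω hS (cN (fun q => s q + g (Sum.inl q)))
        (cN (fun q => s q + g' (Sum.inl q))) (fun u => g (Sum.inr u)) (fun u => g' (Sum.inr u))
        hg hg'
      cases i with
      | inl p =>
        show |(if _ then _ else _) - (if _ then _ else _)| ≤ D / 2 * Wx B ε p
        unfold Wx
        split_ifs with hp
        · rw [← hl.1]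
          exact (hMss Q j' B w ε ω hS D _ _ hb (ci B p)).1 p (ci_spec hS.mono hp.2) hp.1
        · simp
      | inr v =>
        have hv : (0:ℝ) ≤ max v 0 := le_max_right _ _
        show |(_ + _ + _) - (_ + _ + _)| ≤ D / 2 * (κ * NN Q (max v 0))
        rw [add_sub_add_right_eq_sub, add_sub_add_left_eq_sub,
          ← hl.2.2 _ ((hFlz Q j' B w ε ω hS 1 _ _ (ball g hg hgW)).2.2 _ hv)
            ((hFlz Q j' B w ε ω hS 1 _ _ (ball g' hg' hgW')).2.2 _ hv)]
        exact (hFlz Q j' B w ε ω hS D _ _ hb).1 (max v 0) hv)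
  have hgC' : Continuous fun v => g (Sum.inr v) := hgC
  refine ⟨fun q => g (Sum.inl q), fun u => g (Sum.inr u), ?_⟩
  refine
    { xsupp := ?_
      xbd := ?_
      fcont := hgC'
      fbd := ?_
      mass := ?_
      xeq := ?_
      feq := ?_ }
  · intro n hn
    by_contra h
    have h2 : |g (Sum.inl n)| ≤ Wx B ε n := hgW (Sum.inl n)
    unfold Wx at h2
    rw [if_neg h] at h2
    exact hn (abs_nonpos_iff.1 h2)
  · intro n
    exact (hgW (Sum.inl n)).trans (Wx_le B hε0 n)
  · intro v hv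
    have h1 := hgW (Sum.inr v)
    simp only [WW, max_eq_left hv] at h1
    exact h1
  · intro i
    have h1 := (ball g hgC' hgW).2.2.1 i
    rw [one_mul] at h1
    exact h1
  · intro i p hp hpp
    have hpB : B 0 < p := by
      rw [Finset.mem_Ioc] at hp
      exact lt_of_le_of_lt (hS.mono.monotone (Nat.zero_le i)) hp.1
    have h1 := hgfix (Sum.inl p)
    have h2 : Ph Q j' m B w s g (Sum.inl p) =
        XL Q j' B w (cN (fun q => s q + g (Sum.inl q))) (fun u => g (Sum.inr u)) (ci B p) p := by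
      show (if _ then _ else _) = _
      rw [if_pos ⟨hpp, hpB⟩]
    have h3 : ci B p = i := cell_unique hS.mono (ci_spec hS.mono hpB) hp
    rw [h3] at h2
    show g (Sum.inl p) = _
    rw [← h1, h2]
  · intro v hv
    have h1 := hgfix (Sum.inr v)
    have h2 : Ph Q j' m B w s g (Sum.inr v) =
        (vv Q j' 1) ^ 2 * Ker (4 * Q + 3) (vv Q j' 1) (max v 0)
        + FL Q j' B w (cN (fun q => s q + g (Sum.inl q))) (fun u => g (Sum.inr u)) (max v 0)
        + ∑' k, Sg Q j' m B s k (max v 0) := rfl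
    rw [max_eq_left hv] at h2
    show g (Sum.inr v) = _
    rw [← h1, h2]

end Pool.Agent.W748.PX
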