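import Pool.Agent.W406.PX.Stmts

/-!
# PROJECT PX (helper406), TASK FLZ
-/

set_option autoImplicit false

open Finset MeasureTheory

namespace Pool.Agent.W748.PX.FlzT

open Pool.Agent.W406.PX
open Pool.Agent.H96R3.BC (vv NN)
open Pool.Agent.H394R3.BC (Ker)

theorem task : TaskFlz := by
  intro hBlz hFst Q j' B w ε ω hS D c f hb
  have hB := hBlz Q j' B w ε ω hS D c f hb
  obtain ⟨hF1, hF2⟩ := hFst Q j' B w ε ω hS D f hb.1 hb.2.1 hb.2.2.2
  have hD := hb.1
  obtain ⟨hA, hA2⟩ := hS.sumA
  obtain ⟨hBs, hBs2⟩ := hS.sumB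
  set κ : ℝ := kp Q j' with hκdef
  have hκ : 0 ≤ κ := by
    rw [hκdef]; unfold kp; positivity
  have hAs : Summable fun i => D * qA Q j' B i := hA.mul_left D
  have hBs' : Summable fun i => D * qB Q j' B i := hBs.mul_left D
  have hAt : ∑' i, D * qA Q j' B i ≤ D * (κ / 16) := by
    rw [tsum_mul_left]
    exact mul_le_mul_of_nonneg_left hA2 hD
  have hBt : ∑' i, D * qB Q j' B i ≤ D * (κ / 16) := by
    rw [tsum_mul_left]
    exact mul_le_mul_of_nonneg_left hBs2 hD
  have hA0 : ∀ i, 0 ≤ D * qA Q j' B i := by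
    intro i
    have h := (abs_nonneg _).trans ((hB i).1 1 zero_le_one)
    simpa using h
  have hsum : ∀ v : ℝ, 0 ≤ v → Summable fun i => BL Q j' B w c f i v := by
    intro v hv
    refine Summable.of_norm_bounded (hAs.mul_right (v ^ (8 * Q + 7))) (fun i => ?_)
    rw [Real.norm_eq_abs]
    exact (hB i).1 v hv
  refine ⟨?_, ?_, hsum⟩
  · intro v hv
    have h1 := hF1 v hv
    have h0 : |∑' i, BL Q j' B w c f i v| ≤ ∑' i, |BL Q j' B w c f i v| := by
      have := norm_tsum_le_tsum_norm (f := fun i => BL Q j' B w c f i v)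
        (by simpa using (hsum v hv).abs)
      simpa using this
    have h2 : |∑' i, BL Q j' B w c f i v| ≤ D * (κ / 16) * NN Q v := by
      refine h0.trans ?_
      unfold NN
      split_ifs with h
      · calc ∑' i, |BL Q j' B w c f i v| ≤ ∑' i, D * qA Q j' B i * v ^ (8 * Q + 7) :=
              Summable.tsum_le_tsum (fun i => (hB i).1 v hv) (hsum v hv).abs (hAs.mul_right _)
          _ = (∑' i, D * qA Q j' B i) * v ^ (8 * Q + 7) := tsum_mul_right
          _ ≤ D * (κ / 16) * v ^ (4 * Q + 3) := by
              apply mul_le_mul hAt (pow_le_pow_of_le_one hv h (by omega)) (by positivity)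
                (by positivity)
      · calc ∑' i, |BL Q j' B w c f i v| ≤ ∑' i, D * qB Q j' B i * v ^ (3 * Q + 2) :=
              Summable.tsum_le_tsum (fun i => (hB i).2.1 v hv) (hsum v hv).abs (hBs'.mul_right _)
          _ = (∑' i, D * qB Q j' B i) * v ^ (3 * Q + 2) := tsum_mul_right
          _ ≤ D * (κ / 16) * v ^ (3 * Q + 2) := mul_le_mul_of_nonneg_right hBt (by positivity)
    unfold FL
    refine (abs_add_le _ _).trans ?_
    rw [abs_neg]
    refine (add_le_add h1 h2).trans ?_
    have h3 : 0 ≤ D * (κ * NN Q v) := by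
      have h4 : 0 ≤ NN Q v := by
        unfold NN
        split_ifs <;> positivity
      positivity
    have e1 : D * (κ / 4 * NN Q v) = 1 / 4 * (D * (κ * NN Q v)) := by ring
    have e2 : D * (κ / 16) * NN Q v = 1 / 16 * (D * (κ * NN Q v)) := by ring
    have e3 : D / 2 * (κ * NN Q v) = 1 / 2 * (D * (κ * NN Q v)) := by ring
    rw [e1, e2, e3]
    linarith
  · rw [continuous_iff_continuousAt]
    intro v₀
    have hmax : Continuous fun v : ℝ => max v 0 := continuous_id.max continuous_const
    have hon : ContinuousOn (fun v : ℝ => FL Q j' B w c f (max v 0)) (Set.Iio (|v₀| + 1)) := by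
      unfold FL
      apply ContinuousOn.add
      · exact ((hF2.comp hmax).neg).continuousOn
      · refine continuousOn_tsum (u := fun i => D * qA Q j' B i * (|v₀| + 1) ^ (8 * Q + 7))
          (fun i => ?_) (hAs.mul_right _) ?_
        · exact ((hB i).2.2.comp hmax).continuousOn
        · intro i v hv
          rw [Real.norm_eq_abs]
          refine ((hB i).1 _ (le_max_right _ _)).trans ?_
          apply mul_le_mul_of_nonneg_left _ (hA0 i)
          apply pow_le_pow_left₀ (le_max_right _ _)
          exact max_le (le_of_lt hv) (by positivity)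
    refine hon.continuousAt (Iio_mem_nhds ?_)
    have := le_abs_self v₀
    linarith

end Pool.Agent.W748.PX.FlzT
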